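import Pool.Agent.Q193.AW.Conj

/-!
# The functor `P` from AW*-algebras to Baer *-semigroups is not full
-/

set_option autoImplicit false

namespace Pool.Agent.Results.MP_dba3a1_an.NotFull

open Pool.Agent.Q193.AW

/-- There are AW*-algebras `A`, `B` and a morphism of Baer *-semigroups `P(A) → P(B)` which is the
restriction of no complex-linear map and of no conjugate-linear map `A → B`; here `P(A)` and `P(B)`
are Baer *-semigroups. -/
theorem result :
    (∀ (A : Type) (_ : CStarAlgebra A), IsAW A → IsBaer (PA A)) ∧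
    ∃ (A : Type) (_ : CStarAlgebra A) (B : Type) (_ : CStarAlgebra B), IsAW A ∧ IsAW B ∧
      ∃ φ : PA A → PA B, IsBaerHom φ ∧
        (¬ ∃ f : A →ₗ[ℂ] B, ∀ x : PA A, f x = φ x) ∧
        (¬ ∃ f : A →ₛₗ[starRingEnd ℂ] B, ∀ x : PA A, f x = φ x) := by
  refine ⟨fun A _ hA => baer_PA hA, A2, inferInstance, A2 × A2, inferInstance, isAW_BH,
    isAW_prod isAW_BH isAW_BH, twist cj cj_star, twist_hom cj cj_star isAW_BH, ?_, ?_⟩
  · rintro ⟨f, hf⟩
    let x : PA A2 := ⟨tw p1, proj_mem hp1⟩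
    let y : PA A2 := ⟨tw p1, proj_mem hp1⟩ * ⟨tw p2, proj_mem hp2⟩ * ⟨tw p3, proj_mem hp3⟩ *
      ⟨tw p1, proj_mem hp1⟩
    have hy : (y : A2) = ((1 + Complex.I) / 4) • tw p1 := by
      change tw p1 * tw p2 * tw p3 * tw p1 = _
      rw [← map_mul, ← map_mul, ← map_mul, prod_eq, map_smul]
    have h1 : f (y : A2) = ((1 + Complex.I) / 4) • f (x : A2) := by
      rw [hy, map_smul]
    rw [hf, hf] at h1
    have h2 : cj (y : A2) = ((1 + Complex.I) / 4) • cj (x : A2) := congrArg Prod.snd h1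
    have h3 : cj (y : A2) = star ((1 + Complex.I) / 4) • tw p1 := by
      rw [hy, ← map_smul, cj_tw, mc_smul, map_smul]
    have h4 : cj (x : A2) = tw p1 := by
      change cj (tw p1) = _
      rw [cj_tw, mc_p1]
    rw [h3, h4, ← map_smul, ← map_smul] at h2
    have h5 := congrFun (congrFun (tw.injective h2) 0) 0
    simp [p1, Complex.ext_iff] at h5
    norm_num at h5
  · rintro ⟨f, hf⟩
    let x : PA A2 := ⟨tw p1, proj_mem hp1⟩
    let y : PA A2 := ⟨tw p1, proj_mem hp1⟩ * ⟨tw p2, proj_mem hp2⟩ * ⟨tw p3, proj_mem hp3⟩ *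
      ⟨tw p1, proj_mem hp1⟩
    have hy : (y : A2) = ((1 + Complex.I) / 4) • tw p1 := by
      change tw p1 * tw p2 * tw p3 * tw p1 = _
      rw [← map_mul, ← map_mul, ← map_mul, prod_eq, map_smul]
    have h1 : f (y : A2) = star ((1 + Complex.I) / 4) • f (x : A2) := by
      rw [hy, LinearMap.map_smulₛₗ]
      rfl
    rw [hf, hf] at h1
    have h2 : (y : A2) = star ((1 + Complex.I) / 4) • (x : A2) := congrArg Prod.fst h1
    have h4 : (x : A2) = tw p1 := rfl
    rw [hy, h4, ← map_smul, ← map_smul] at h2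
    have h5 := congrFun (congrFun (tw.injective h2) 0) 0
    simp [p1, Complex.ext_iff] at h5
    norm_num at h5

end Pool.Agent.Results.MP_dba3a1_an.NotFull
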